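import Mathlib

set_option autoImplicit false

namespace Pool.Agent.H.MP_ae49d3_an

open Filter Topology Set Submodule RealInnerProductSpace

variable {V : Type} [NormedAddCommGroup V] [InnerProductSpace ℝ V] {δ : V →ₗ[ℝ] ℝ}

lemma small (hδ : ∀ ε : ℝ, 0 < ε → ∃ q, δ q = 1 ∧ ‖q‖ ≤ ε) (E : Submodule ℝ V)
    [FiniteDimensional ℝ E] {ε : ℝ} (hε : 0 < ε) : ∃ p ∈ Eᗮ, δ p = 1 ∧ ‖p‖ ≤ ε := by
  let L := LinearMap.toContinuousLinearMap (δ.domRestrict E)
  obtain ⟨q, q1, q2⟩ := hδ (min (ε / 2) (1 / (2 * (‖L‖ + 1)))) (by positivity)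
  have a1 : |δ (E.starProjection q)| ≤ 1 / 2 := by
    have b1 : |δ (E.starProjection q)| ≤ ‖L‖ * ‖E.starProjection q‖ :=
      L.le_opNorm ⟨_, E.starProjection_apply_mem q⟩
    have b2 := (E.norm_starProjection_apply_le q).trans (q2.trans (min_le_right _ _))
    rw [le_div_iff₀ (by positivity)] at b2
    nlinarith [norm_nonneg (E.starProjection q)]
  have a2 : ‖q - E.starProjection q‖ ≤ ε / 2 := by
    rw [← starProjection_orthogonal_val]
    exact (Eᗮ.norm_starProjection_apply_le q).trans (q2.trans (min_le_left _ _))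
  have a3 : 1 / 2 ≤ δ (q - E.starProjection q) := by
    rw [map_sub, q1]; linarith [(abs_le.1 a1).2]
  refine ⟨(δ (q - E.starProjection q))⁻¹ • (q - E.starProjection q),
    smul_mem _ _ (E.sub_starProjection_mem_orthogonal q), ?_, ?_⟩
  · rw [map_smul, smul_eq_mul, inv_mul_cancel₀ (by linarith)]
  rw [norm_smul, norm_inv, Real.norm_of_nonneg (by linarith), inv_mul_le_iff₀ (by linarith)]
  nlinarith

lemma exact (hδ : ∀ ε : ℝ, 0 < ε → ∃ q, δ q = 1 ∧ ‖q‖ ≤ ε) (E : Submodule ℝ V)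
    [FiniteDimensional ℝ E] (γ : ℝ) {ρ : ℝ} (hρ : 0 < ρ) : ∃ p ∈ Eᗮ, δ p = γ ∧ ‖p‖ = ρ := by
  obtain ⟨p, p1, p2, -⟩ := small hδ E one_pos
  obtain ⟨q, q1, q2, q3⟩ := small hδ (E ⊔ span ℝ {p}) (ε := ρ / (|γ| + 1)) (by positivity)
  have q4 : q ∈ Eᗮ := orthogonal_le le_sup_left q1
  have a1 : 0 < ‖p - q‖ := norm_pos_iff.2 fun h => by
    have := q1 p (mem_sup_right (mem_span_singleton_self p))
    rw [← sub_eq_zero.1 h, inner_self_eq_zero] at this
    simp [this] at p2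
  have a2 : ‖γ • q‖ ≤ ρ := by
    rw [le_div_iff₀ (by positivity)] at q3
    rw [norm_smul, Real.norm_eq_abs]
    nlinarith [norm_nonneg q]
  obtain ⟨a, ha⟩ := intermediate_value_univ (0 : ℝ) (2 * ρ / ‖p - q‖)
    (f := fun a : ℝ => ‖γ • q + a • (p - q)‖) (by fun_prop) (show ρ ∈ _ from ⟨by simpa using a2, by
      have := norm_sub_le (γ • q + (2 * ρ / ‖p - q‖) • (p - q)) (γ • q)
      rw [add_sub_cancel_left, norm_smul, Real.norm_of_nonneg (by positivity),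
        div_mul_cancel₀ _ a1.ne'] at this
      linarith⟩)
  exact ⟨_, add_mem (smul_mem _ _ q4) (smul_mem _ _ (sub_mem p1 q4)), by simp [p2, q2], ha⟩

lemma step (hδ : ∀ ε : ℝ, 0 < ε → ∃ q, δ q = 1 ∧ ‖q‖ ≤ ε) (o : V) (E : Submodule ℝ V)
    [FiniteDimensional ℝ E] {t : V} (ht : t ∉ E ⊔ span ℝ {o}) :
    ∃ ψ b : V, ψ ≠ 0 ∧ b ≠ 0 ∧ ⟪ψ, b⟫ = 0 ∧ ψ ∈ Eᗮ ∧ b ∈ Eᗮ ∧ δ ψ = 0 ∧ ⟪o, b⟫ = 0 ∧
      t ∈ E ⊔ span ℝ {ψ, b} := by
  obtain ⟨w, hw⟩ : ∃ w, w = t - (E ⊔ span ℝ {o}).starProjection t := ⟨_, rfl⟩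
  obtain ⟨r, hr⟩ : ∃ r, r = t - E.starProjection t := ⟨_, rfl⟩
  have w1 : w ∈ (E ⊔ span ℝ {o})ᗮ := hw ▸ sub_starProjection_mem_orthogonal t
  have r1 : r ∈ Eᗮ := hr ▸ sub_starProjection_mem_orthogonal t
  have w0 : 0 < ‖w‖ := norm_pos_iff.2 fun h =>
    ht (by rw [hw, sub_eq_zero] at h; rw [h]; exact starProjection_apply_mem _ t)
  obtain ⟨p, p1, p2, p3⟩ := exact hδ ((E ⊔ span ℝ {o}) ⊔ span ℝ {w}) (δ r - δ w / 2)
    (ρ := ‖w‖ / 2) (by positivity)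
  have p4 := orthogonal_le le_sup_left p1
  have p5 : ⟪w, p⟫ = 0 := p1 w (mem_sup_right (mem_span_singleton_self w))
  have b1 : (1 / 2 : ℝ) • w + p ∈ (E ⊔ span ℝ {o})ᗮ := add_mem (smul_mem _ _ w1) p4
  have a1 : ∀ x ∈ (E ⊔ span ℝ {o})ᗮ, ⟪r, x⟫ = ⟪w, x⟫ := fun x hx => by
    rw [hr, hw, inner_sub_left, inner_sub_left, hx _ (starProjection_apply_mem _ t),
      hx _ (mem_sup_left (starProjection_apply_mem _ t))]
  have a2 : ⟪w, (1 / 2 : ℝ) • w + p⟫ = ‖w‖ ^ 2 / 2 := by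
    rw [inner_add_right, p5, real_inner_smul_right, real_inner_self_eq_norm_sq]; ring
  refine ⟨r - ((1 / 2 : ℝ) • w + p), (1 / 2 : ℝ) • w + p, fun h => ?_, fun h => ?_, ?_,
    sub_mem r1 (orthogonal_le le_sup_left b1), orthogonal_le le_sup_left b1, ?_,
    b1 o (mem_sup_right (mem_span_singleton_self o)), ?_⟩
  · have := a1 w w1
    rw [sub_eq_zero.1 h, real_inner_comm, a2, real_inner_self_eq_norm_sq] at this
    nlinarith
  · rw [h, inner_zero_right] at a2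
    nlinarith
  · rw [inner_sub_left, a1 _ b1, a2, inner_add_left, real_inner_smul_left, a2, inner_add_right,
      real_inner_smul_right, real_inner_comm, p5, real_inner_self_eq_norm_sq, p3]
    ring
  · rw [map_sub, map_add, map_smul, p2, smul_eq_mul]; ring
  rw [show t = E.starProjection t + ((r - ((1 / 2 : ℝ) • w + p)) + ((1 / 2 : ℝ) • w + p)) by
    rw [hr]; abel]
  exact add_mem_sup (starProjection_apply_mem _ t)
    (add_mem (subset_span (by simp)) (subset_span (by simp)))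

theorem main (hδ : ∀ ε : ℝ, 0 < ε → ∃ q, δ q = 1 ∧ ‖q‖ ≤ ε) (o : V) (A : ℕ → Set V)
    (hA : ∀ k (E : Submodule ℝ V), FiniteDimensional ℝ E → ∃ t ∈ A k, t ∉ E) :
    ∃ φ : ℕ → V, (∀ n, φ n ≠ 0) ∧ (∀ m n, m ≠ n → ⟪φ m, φ n⟫ = 0) ∧
      (∀ n, δ (φ n) = 0 ∨ ⟪o, φ n⟫ = 0) ∧ ∀ k, ∃ t ∈ A k, t ∈ span ℝ (range φ) := by
  have h : ∀ k (E : {E : Submodule ℝ V // FiniteDimensional ℝ E}), ∃ ψ b : V, ψ ≠ 0 ∧ b ≠ 0 ∧
      ⟪ψ, b⟫ = 0 ∧ ψ ∈ E.1ᗮ ∧ b ∈ E.1ᗮ ∧ δ ψ = 0 ∧ ⟪o, b⟫ = 0 ∧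
      ∃ t ∈ A k, t ∈ E.1 ⊔ span ℝ {ψ, b} := fun k E => by
    have := E.2
    obtain ⟨t, t1, t2⟩ := hA k (E.1 ⊔ span ℝ {o}) inferInstance
    obtain ⟨ψ, b, h1, h2, h3, h4, h5, h6, h7, h8⟩ := step hδ o E.1 t2
    exact ⟨ψ, b, h1, h2, h3, h4, h5, h6, h7, t, t1, h8⟩
  choose ψ b h1 h2 h3 h4 h5 h6 h7 h8 using h
  let E : ℕ → {E : Submodule ℝ V // FiniteDimensional ℝ E} := fun k => Nat.rec
    ⟨⊥, inferInstance⟩ (fun k E => ⟨E.1 ⊔ span ℝ {ψ k E, b k E}, by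
      have := E.2
      have := FiniteDimensional.span_of_finite ℝ (toFinite {ψ k E, b k E})
      infer_instance⟩) k
  have E1 : ∀ k, (E (k + 1)).1 = (E k).1 ⊔ span ℝ {ψ k (E k), b k (E k)} := fun k => rfl
  have E2 : Monotone fun k => (E k).1 := monotone_nat_of_le_succ fun k => le_sup_left
  let φ : ℕ → V := fun n => if n % 2 = 0 then ψ (n / 2) (E (n / 2)) else b (n / 2) (E (n / 2))
  have f1 : ∀ n, φ n ∈ (E (n / 2)).1ᗮ := fun n => by
    simp only [φ]; split_ifs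
    exacts [h4 _ _, h5 _ _]
  have f2 : ∀ n, φ n ∈ (E (n / 2 + 1)).1 := fun n => by
    rw [E1]
    refine mem_sup_right (subset_span ?_)
    simp only [φ]; split_ifs <;> simp
  have f3 : ∀ k, (E k).1 ≤ span ℝ (range φ) := fun k => by
    induction k with
    | zero => exact bot_le
    | succ k ih =>
      rw [E1]
      refine sup_le ih (span_mono ?_)
      rintro _ (rfl | rfl)
      · exact ⟨2 * k, by simp [φ]⟩
      exact ⟨2 * k + 1, by simp [φ, show (2 * k + 1) / 2 = k by omega]⟩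
  have f4 : ∀ m n, m < n → ⟪φ m, φ n⟫ = 0 := fun m n h => by
    rcases (Nat.div_le_div_right (c := 2) h.le).eq_or_lt with e | e
    · simp only [φ]
      rw [if_pos (by omega), if_neg (by omega), e, h3]
    exact f1 n _ (E2 e (f2 m))
  refine ⟨φ, fun n => ?_, fun m n h => ?_, fun n => ?_, fun k => ?_⟩
  · simp only [φ]; split_ifs
    exacts [h1 _ _, h2 _ _]
  · rcases lt_or_gt_of_ne h with h | h
    · exact f4 m n h
    rw [real_inner_comm, f4 n m h]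
  · simp only [φ]; split_ifs
    exacts [Or.inl (h6 _ _), Or.inr (h7 _ _)]
  obtain ⟨t, t1, t2⟩ := h8 k (E k)
  exact ⟨t, t1, f3 (k + 1) t2⟩

open MeasureTheory unitInterval in
theorem sys : ∃ φ : ℕ → C(I, ℝ), (∀ n, φ n ≠ 0) ∧ (∀ m n, m ≠ n → ∫ t, φ m t * φ n t = 0) ∧
    Dense (span ℝ (range φ) : Set C(I, ℝ)) ∧ ∀ n, φ n 0 = 0 ∨ ∫ t, φ n t = 0 := by
  have : (volume : Measure I).IsOpenPosMeasure := ⟨by
    rintro _ ⟨W, hW, rfl⟩ ⟨x, hx⟩ h
    have a1 : (x : ℝ) ∈ closure (Ioo (0 : ℝ) 1) := by rw [closure_Ioo zero_ne_one]; exact x.2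
    refine (hW.inter isOpen_Ioo).measure_ne_zero volume (mem_closure_iff.1 a1 W hW hx)
      (measure_mono_null ?_ (volume_apply.symm.trans h))
    exact fun y hy => ⟨⟨y, Ioo_subset_Icc_self hy.2⟩, hy.1, rfl⟩⟩
  let T : C(I, ℝ) →ₗ[ℝ] Lp ℝ 2 (volume : Measure I) := (ContinuousMap.toLp 2 volume ℝ).toLinearMap
  let e := LinearEquiv.ofInjective T (ContinuousMap.toLp_injective (p := 2) (𝕜 := ℝ) volume)
  have ie : ∀ f g, ⟪e f, e g⟫ = ∫ t, f t * g t := fun f g => by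
    have := ContinuousMap.inner_toLp (𝕜 := ℝ) volume f g
    simp only [conj_trivial] at this
    simp only [mul_comm (f _)]
    exact this
  let δ : LinearMap.range T →ₗ[ℝ] ℝ := (ContinuousMap.evalCLM ℝ (0 : I)).toLinearMap ∘ₗ e.symm
  have de : ∀ f, δ (e f) = f 0 := fun f => by simp [δ]
  have hδ : ∀ ε : ℝ, 0 < ε → ∃ q, δ q = 1 ∧ ‖q‖ ≤ ε := fun ε hε => by
    let u : C(I, ℝ) := ⟨fun t => 1 - t, by fun_prop⟩
    have u0 : ∀ t, 0 ≤ u t := fun t => sub_nonneg.2 t.2.2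
    have a1 := tendsto_integral_of_dominated_convergence (μ := (volume : Measure I))
      (F := fun n t => (u ^ n) t * (u ^ n) t) (f := fun _ => 0) (fun _ => 1)
      (fun n => by fun_prop) (integrable_const _)
      (fun n => .of_forall fun t => by
        have : |u t| ≤ 1 := by rw [abs_of_nonneg (u0 t)]; exact sub_le_self _ t.2.1
        simp only [ContinuousMap.pow_apply, ← pow_add, Real.norm_eq_abs, abs_pow]
        exact pow_le_one₀ (abs_nonneg _) this) (by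
        filter_upwards [compl_mem_ae_iff.2 (measure_singleton (0 : I))] with t ht
        have := tendsto_pow_atTop_nhds_zero_of_lt_one (u0 t)
          (sub_lt_self _ (lt_of_le_of_ne t.2.1 fun h => ht (Subtype.ext h.symm)))
        simpa using this.mul this)
    rw [integral_zero] at a1
    obtain ⟨n, hn⟩ := (a1.eventually (gt_mem_nhds (pow_pos hε 2))).exists
    refine ⟨e (u ^ n), by simp [de, u], ?_⟩
    rw [← ie, real_inner_self_eq_norm_sq] at hn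
    exact (abs_le_of_sq_le_sq' hn.le hε.le).2
  obtain ⟨φ, h1, h2, h3, h4⟩ := main hδ (e 1) (fun k => e '' Metric.ball
    (TopologicalSpace.denseSeq C(I, ℝ) k.unpair.1) (1 / (k + 1))) fun k E hE => by
      by_contra! h
      have a1 : E.comap e.toLinearMap = ⊤ := eq_top_of_nonempty_interior' _
        ⟨_, interior_maximal (fun f hf => h (e f) ⟨f, hf, rfl⟩) Metric.isOpen_ball
          (Metric.mem_ball_self Nat.one_div_pos_of_nat)⟩
      obtain ⟨p, p1, p2, -⟩ := small hδ E one_pos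
      obtain ⟨f, rfl⟩ := e.surjective p
      have := p1 (e f) (show f ∈ E.comap e.toLinearMap by rw [a1]; trivial)
      rw [inner_self_eq_zero] at this
      simp [this] at p2
  refine ⟨fun n => e.symm (φ n), fun n h => h1 n (by simpa using h), fun m n h => ?_, ?_,
    fun n => ?_⟩
  · rw [← ie, e.apply_symm_apply, e.apply_symm_apply, h2 m n h]
  · rw [← dense_closure]
    refine (TopologicalSpace.denseRange_denseSeq C(I, ℝ)).mono ?_
    rintro _ ⟨i, rfl⟩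
    refine Metric.mem_closure_iff.2 fun ε hε => ?_
    obtain ⟨j, hj⟩ := exists_nat_one_div_lt hε
    obtain ⟨_, ⟨f, f1, rfl⟩, f2⟩ := h4 (i.pair j)
    rw [Nat.unpair_pair, Metric.mem_ball'] at f1
    refine ⟨f, ?_, f1.trans_le (le_trans ?_ hj.le)⟩
    · have := apply_mem_span_image_of_mem_span e.symm.toLinearMap f2
      rwa [← range_comp, LinearEquiv.coe_coe, e.symm_apply_apply] at this
    gcongr
    exact Nat.right_le_pair i j
  refine (h3 n).imp (fun h => ?_) fun h => ?_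
  · rw [← de, e.apply_symm_apply, h]
  rw [← e.apply_symm_apply (φ n), ie] at h
  simpa using h

end Pool.Agent.H.MP_ae49d3_an
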